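import Pool.Agent.R23.TT.Stm

set_option autoImplicit false

/-! TT-FIN3. -/

namespace Pool.Agent.R757.TT

open Pool.Agent.R23.TT

theorem t_FIN3 : S_FIN3 := by
  intro a b r _ _ h1 h2 h3 _
  obtain ⟨x, hx⟩ : ∃ x, x = r - a := ⟨_, rfl⟩
  obtain ⟨y, hy⟩ : ∃ y, y = b - r := ⟨_, rfl⟩
  obtain ⟨t, ht⟩ : ∃ t, t = r + a - b := ⟨_, rfl⟩
  have hx0 : 0 ≤ x := by linarith
  have hy0 : 0 ≤ y := by linarith
  have ht0 : 0 ≤ t := by linarith
  have hr : r = x + y + t := by linarith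
  have ha : a = y + t := by linarith
  have hb : b = x + 2 * y + t := by linarith
  have key : 0 ≤ 23 / 72 * x ^ 3 + 37 / 24 * (x ^ 2 * y) + 7 / 8 * (x ^ 2 * t) +
      7 / 3 * (x * y ^ 2) + 2 * (x * y * t) + 14 / 9 * y ^ 3 + 2 * (y ^ 2 * t) := by positivity
  subst hr ha hb
  nlinarith [key]

end Pool.Agent.R757.TT

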